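import Pool.Agent.helper73.TF.Fin
import Pool.Agent.helper32.TF.THN
import Pool.Agent.helper39.TF.CLO
import Pool.Agent.helper53.TF.BGP
import Pool.Agent.helper53.TF.SLV
import Pool.Agent.helper60.TF.FIX
import Pool.Agent.helper64.TF.CNT
import Pool.Agent.helper68.TF.LED
import Pool.Agent.helper69.TF.CVR
import Pool.Agent.helper88.TF.MNK
import Pool.Agent.helper88.TF.FOR
import Pool.Agent.helper90.TF.VCY
import Pool.Agent.helper87.TF.IRR
import Pool.Agent.helper9.TF.PRC

/-!
# Assembly of project TF, first part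
-/

set_option autoImplicit false

namespace Pool.Agent.TF

theorem tSLV : SLV_stmt := SLV BGP
theorem tFIX : FIX_stmt := FIX MNK
theorem tVCY : VCY_stmt := VCY tSLV tFIX
theorem tLED : LED_stmt := LED PRC
theorem tCLO : CLO_stmt := CLO tLED PRC
theorem tIRR : IRR_stmt := IRR PRC
theorem tCVR : CVR_stmt := CVR tVCY tCLO CNT PRC
theorem tTHN : THN_stmt := THN TRK tCVR FOR tIRR PRC

end Pool.Agent.TF
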