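import Pool.Agent.helper73.TF.Par
import Pool.Agent.helper53.TF.BGP
import Pool.Agent.helper53.TF.SLV

/-!
# Two transvections in a virtually solvable group
-/

set_option autoImplicit false

namespace Pool.Agent.TF

open Matrix Pool.Agent.H48SL

theorem Par2_pair {n : ℕ} (hBGP : BGP_stmt) (H : Subgroup (SLZ n)) (hR : Rk H) (S : Subgroup (SLZ n)) (hS : S ≤ H)
    (hsol : Group.IsSolvable S) (z z' : SLZ n) (hz : z ∈ S) (hz'S : z' ∈ S) (hT : IsTv z) (hz'T : IsTv z') :
    CP z z' := by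
  by_contra hcp
  have hcp' : ¬ CP z' z := fun h => hcp (Par_CP_symm h)
  obtain ⟨M, hM⟩ := hBGP n H hR 2 (fun i => if i = 0 then z else z') (by
    intro i
    split_ifs
    · exact ⟨hS hz, hT⟩
    · exact ⟨hS hz'S, hz'T⟩) (by
    intro i j hij
    fin_cases i <;> fin_cases j
    · exact absurd rfl hij
    · exact hcp
    · exact hcp'
    · exact absurd rfl hij)
  set Z : Fin 2 → SLZ n := fun i => if i = 0 then z else z' with hZ
  have hZS : ∀ i, Z i ∈ S := by
    intro i
    rw [hZ]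
    dsimp only
    split_ifs
    · exact hz
    · exact hz'S
  set φ : FreeGroup (Fin 2) →* S := FreeGroup.lift (fun i : Fin 2 => (⟨Z i ^ ((M : ℤ) + 1), S.zpow_mem (hZS i) _⟩ : S)) with hφ
  have hinj : Function.Injective φ := by
    rw [injective_iff_map_eq_one]
    intro x hx
    rw [← FreeGroup.mk_toWord (x := x)] at hx ⊢
    rcases SLV_syl x.toWord with h1 | ⟨w, hw, hc, h0, h1⟩
    · exact h1
    · exfalso
      rw [h1] at hx
      have h2 : ((φ ((w.map fun p => FreeGroup.of p.1 ^ p.2).prod) : S) : SLZ n) = 1 := by rw [hx]; rfl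
      have h3 : ((φ ((w.map fun p => FreeGroup.of p.1 ^ p.2).prod) : S) : SLZ n) =
          ((w.map fun p => (p.1, ((M : ℤ) + 1) * p.2)).map fun p => Z p.1 ^ p.2).prod := by
        rw [← Subgroup.coe_subtype, ← MonoidHom.comp_apply, map_list_prod, List.map_map, List.map_map]
        congr 1
        apply List.map_congr_left
        intro q _
        rw [Function.comp_apply, Function.comp_apply, map_zpow, MonoidHom.comp_apply, hφ, FreeGroup.lift_apply_of,
          Subgroup.coe_subtype]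
        dsimp only
        rw [_root_.zpow_mul]
      rw [h3] at h2
      refine hM (w.map fun p => (p.1, ((M : ℤ) + 1) * p.2)) ?_ ?_ ?_ h2
      · intro h4
        exact hw (List.map_eq_nil_iff.mp h4)
      · rw [List.map_map]
        exact hc
      · intro q hq
        obtain ⟨r, hr, rfl⟩ := List.mem_map.mp hq
        have h5 : 1 ≤ |r.2| := Int.one_le_abs (h0 r hr)
        rw [abs_mul]
        have h6 : |(M : ℤ) + 1| = (M : ℤ) + 1 := abs_of_nonneg (by positivity)
        rw [h6]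
        nlinarith
  exact SLV_free_not_solvable (Group.isSolvable_of_isSolvable_injective hinj)

theorem Par2_pow {n : ℕ} {z : SLZ n} (h : IsTv z) {j : ℕ} (hj : j ≠ 0) : IsTv (z ^ j) := by
  obtain ⟨v, f, h⟩ := h
  refine ⟨v, (j : ℤ) • f, h.ne_v, ?_, ?_, ?_⟩
  · intro h1
    rcases smul_eq_zero.1 h1 with h2 | h2
    · omega
    · exact h.ne_f h2
  · rw [smul_dotProduct, h.dot, smul_zero]
  · rw [tv_nsmul_right h.dot, ← h.eq]

theorem Par2_vsol {n : ℕ} (hBGP : BGP_stmt) (H : Subgroup (SLZ n)) (hR : Rk H) (z z' : SLZ n) (hz : z ∈ H)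
    (hz' : z' ∈ H) (hT : IsTv z) (hT' : IsTv z') (h : VSol (Subgroup.closure {z, z'})) : CP z z' := by
  obtain ⟨S, h1, h2, h3⟩ := h
  have hc1 : z ∈ Subgroup.closure ({z, z'} : Set (SLZ n)) := Subgroup.subset_closure (by simp)
  have hc2 : z' ∈ Subgroup.closure ({z, z'} : Set (SLZ n)) := Subgroup.subset_closure (by simp)
  have hle : Subgroup.closure ({z, z'} : Set (SLZ n)) ≤ H := by
    rw [Subgroup.closure_le]
    rintro x hx
    rcases hx with rfl | hx
    · exact hz
    · rw [Set.mem_singleton_iff] at hx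
      rw [hx]
      exact hz'
  obtain ⟨j, hj, -, hjS⟩ := Subgroup.exists_pow_mem_of_relIndex_ne_zero h3 hc1
  obtain ⟨k, hk, -, hkS⟩ := Subgroup.exists_pow_mem_of_relIndex_ne_zero h3 hc2
  obtain ⟨a, b, ha, hb, hab⟩ := Par2_pair hBGP H hR S (h1.trans hle) h2 (z ^ j) (z' ^ k) (Subgroup.mem_inf.1 hjS).1
    (Subgroup.mem_inf.1 hkS).1 (Par2_pow hT (by omega)) (Par2_pow hT' (by omega))
  refine ⟨j * a, k * b, mul_ne_zero (by exact_mod_cast (by omega : j ≠ 0)) ha,
    mul_ne_zero (by exact_mod_cast (by omega : k ≠ 0)) hb, ?_⟩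
  rw [_root_.zpow_mul, zpow_natCast, hab, _root_.zpow_mul, zpow_natCast]

theorem Par2 {n : ℕ} (hBGP : BGP_stmt) (hFIX : FIX_stmt) (H : Subgroup (SLZ n)) (hR : Rk H) (P : Subgroup (SLZ n))
    (hP : P ≤ H) (z : SLZ n) (hz : z ∈ H) (ht : IsTv z)
    (hc : ∀ p ∈ P, VSol (Subgroup.closure {z, p * z * p⁻¹})) : VSol (P ⊔ Subgroup.zpowers z) := by
  have hPK : P ≤ ParK z := by
    intro p hp
    obtain ⟨v, f, h⟩ := ht
    exact Par2_vsol hBGP H hR z (p * z * p⁻¹) hz (H.mul_mem (H.mul_mem (hP hp) hz) (H.inv_mem (hP hp)))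
      ⟨v, f, h⟩ ⟨_, _, Par_tv_conj h p⟩ (hc p hp)
  obtain ⟨v, f, h⟩ := ht
  have hzz : z = tv v f := h.eq
  have hle : P ⊔ Subgroup.zpowers z ≤ ParK z ⊓ H := by
    refine sup_le (le_inf hPK hP) ?_
    rw [Subgroup.zpowers_le]
    refine ⟨⟨1, 1, one_ne_zero, one_ne_zero, by simp⟩, hz⟩
  have hpow : ∀ p ∈ P ⊔ Subgroup.zpowers z, ∃ k : ℕ, 1 ≤ k ∧ ∃ m : ℤ, p ^ k = z ^ m := by
    intro p hp
    obtain ⟨⟨a, b, ha, hb, hab⟩, hpH⟩ := hle hp
    refine hR.stab z p v f hz hpH h ?_
    apply VCY_dot p v f h.ne_v h.dot a b ha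
    rw [← hzz]
    exact hab
  have hzP : z ∈ P ⊔ Subgroup.zpowers z := (le_sup_right : Subgroup.zpowers z ≤ _) (Subgroup.mem_zpowers z)
  refine ⟨Subgroup.zpowers z, le_sup_right, ?_, hFIX n _ z v f hzP h hpow⟩
  refine Group.isSolvable_of_comm ?_
  rintro ⟨_, a, rfl⟩ ⟨_, b, rfl⟩
  exact Subtype.ext (Commute.zpow_zpow_self z a b).eq

/-- a group generated by two commuting elements is virtually solvable -/
theorem Par2_comm {G : Type} [Group G] (z z' : G) (h : Commute z z') : VSol (Subgroup.closure {z, z'}) := by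
  refine ⟨Subgroup.closure {z, z'}, le_refl _, ?_, ?_⟩
  · have h1 : ∀ x ∈ ({z, z'} : Set G), ∀ y ∈ ({z, z'} : Set G), x * y = y * x := by
      rintro x hx y hy
      simp only [Set.mem_insert_iff, Set.mem_singleton_iff] at hx hy
      rcases hx with rfl | rfl <;> rcases hy with rfl | rfl
      · rfl
      · exact h.eq
      · exact h.eq.symm
      · rfl
    exact Group.isSolvable_of_comm (Subgroup.closureCommGroupOfComm h1).mul_comm
  · rw [Subgroup.relIndex_self]
    exact one_ne_zero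

end Pool.Agent.TF
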