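import Pool.Agent.helper73.TF.Fin2
import Pool.Agent.helper73.TF.Par2
import Pool.Agent.helper73.TF.Asm0
import Pool.Agent.helper82.TF.VEC
import Pool.Agent.helper5.PR.AsmZ

/-!
# Assembly of project TF
-/

set_option autoImplicit false

namespace Pool.Agent.TF

open Matrix Pool.Agent.H48SL
open scoped Pointwise

theorem tVEC : VEC_stmt := VEC Pool.Agent.PR.tZ_MAL PRC

theorem Asm_prod {Γ : Type} [Group Γ] {n : ℕ} (hn : 3 ≤ n)
    (φ : Γ →* SLZ n) (hφ : Function.Injective φ) (hD : ZDense φ.range) (hi : ¬ φ.range.FiniteIndex)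
    (T : Set Γ) (hT : ∀ g ∈ T, IsTv (φ g)) (k : ℕ) (X : Fin k → Set Γ) (A : Subgroup Γ)
    (hX : ∀ i, (X i).Finite ∨ ∃ P : Subgroup Γ, X i = P ∧ ∃ z ∈ T, ∀ p ∈ P, VSol (Subgroup.closure {z, p * z * p⁻¹}))
    (hA : VSol A)
    (hall : ∀ g : Γ, ∃ x : Fin k → Γ, (∀ i, x i ∈ X i) ∧ ∃ a ∈ A, g = (List.ofFn x).prod * a) : False := by
  have hR := TRK n hn φ.range hD hi
  have hY : ∀ i, ∃ Y : Set (SLZ n), Fac φ.range Y ∧ ∀ x ∈ X i, φ x ∈ Y := by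
    intro i
    rcases hX i with h | ⟨P, h1, z, hzT, h2⟩
    · refine ⟨φ '' X i, ⟨?_, Or.inl (h.image φ)⟩, fun x hx => ⟨x, hx, rfl⟩⟩
      rintro _ ⟨g, _, rfl⟩
      exact ⟨g, rfl⟩
    · have hP : P.map φ ≤ φ.range := by
        rintro _ ⟨g, _, rfl⟩
        exact ⟨g, rfl⟩
      have h3 : VSol (P.map φ ⊔ Subgroup.zpowers (φ z)) := by
        refine Par2 BGP tFIX φ.range hR (P.map φ) hP (φ z) ⟨z, rfl⟩ (hT z hzT) ?_
        rintro _ ⟨p, hp, rfl⟩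
        have h4 := Fin_solv_map φ hφ _ (h2 p hp)
        rw [MonoidHom.map_closure, Set.image_pair, map_mul, map_mul, map_inv] at h4
        exact h4
      refine ⟨(P.map φ ⊔ Subgroup.zpowers (φ z) : Subgroup (SLZ n)), ⟨?_, Or.inr ⟨_, rfl, h3, φ z, ?_, hT z hzT⟩⟩, ?_⟩
      · have h5 : P.map φ ⊔ Subgroup.zpowers (φ z) ≤ φ.range := by
          refine sup_le hP ?_
          rw [Subgroup.zpowers_le]
          exact ⟨z, rfl⟩
        exact h5
      · exact (le_sup_right : Subgroup.zpowers (φ z) ≤ _) (Subgroup.mem_zpowers _)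
      · intro x hx
        rw [h1] at hx
        exact (le_sup_left : P.map φ ≤ _) ⟨x, hx, rfl⟩
  choose Y hY1 hY2 using hY
  have hAle : A.map φ ≤ φ.range := by
    rintro _ ⟨g, _, rfl⟩
    exact ⟨g, rfl⟩
  refine tTHN n hn φ.range hD hi (List.ofFn Y) ?_ (A.map φ) hAle
    (tVEC n (by omega) (A.map φ) (Fin_solv_map φ hφ A hA)) ?_
  · intro Z hZ
    rw [List.mem_ofFn] at hZ
    obtain ⟨i, rfl⟩ := hZ
    exact hY1 i
  · rintro _ ⟨g, rfl⟩
    obtain ⟨x, hx, a, ha, hg⟩ := hall g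
    refine Set.mem_mul.2 ⟨φ (List.ofFn x).prod, ?_, φ a, ⟨a, ha, rfl⟩, ?_⟩
    · rw [Set.mem_prod_list_ofFn]
      refine ⟨fun i => ⟨φ (x i), hY2 i _ (hx i)⟩, ?_⟩
      rw [map_list_prod, List.map_ofFn]
      rfl
    · rw [hg, map_mul]

end Pool.Agent.TF
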