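import Pool.Agent.helper73.TF.TRK
import Pool.Agent.helper54.UG.Abs
import Pool.Agent.helper45.PR.X_RSJ

/-!
# Products of transvection groups: assembly, parametrised by the rows
-/

set_option autoImplicit false

namespace Pool.Agent.TF

open Matrix Pool.Agent.H48SL
open scoped Pointwise

theorem Fin_solv_map {Γ : Type} [Group Γ] {n : ℕ} (φ : Γ →* SLZ n) (hφ : Function.Injective φ)
    (P : Subgroup Γ) (h : VSol P) : VSol (P.map φ) := by
  obtain ⟨S, h1, h2, h3⟩ := h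
  refine ⟨S.map φ, Subgroup.map_mono h1, ?_, ?_⟩
  · let e' : S ≃* S.map φ := S.equivMapOfInjective φ hφ
    exact Group.isSolvable_of_surjective (f := e'.toMonoidHom) e'.surjective
  · rwa [Subgroup.relIndex_map_map_of_injective S P hφ]

theorem Fin_prod {Γ : Type} [Group Γ] {n : ℕ} (hn : 3 ≤ n) (hTHN : THN_stmt) (hVEC : VEC_stmt)
    (φ : Γ →* SLZ n) (hφ : Function.Injective φ) (hD : ZDense φ.range) (hi : ¬ φ.range.FiniteIndex)
    (T : Set Γ) (hT : ∀ g ∈ T, IsTv (φ g)) (k : ℕ) (X : Fin k → Set Γ) (A : Subgroup Γ)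
    (hX : ∀ i, (X i).Finite ∨ ∃ P : Subgroup Γ, X i = P ∧ VSol P ∧ ∃ z ∈ P, z ∈ T) (hA : VSol A)
    (hall : ∀ g : Γ, ∃ x : Fin k → Γ, (∀ i, x i ∈ X i) ∧ ∃ a ∈ A, g = (List.ofFn x).prod * a) : False := by
  have hAle : A.map φ ≤ φ.range := by
    rintro _ ⟨g, _, rfl⟩
    exact ⟨g, rfl⟩
  refine hTHN n hn φ.range hD hi (List.ofFn fun i => φ '' X i) ?_ (A.map φ) hAle
    (hVEC n (by omega) (A.map φ) (Fin_solv_map φ hφ A hA)) ?_
  · intro Y hY
    rw [List.mem_ofFn] at hY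
    obtain ⟨i, rfl⟩ := hY
    refine ⟨?_, ?_⟩
    · rintro _ ⟨g, _, rfl⟩
      exact ⟨g, rfl⟩
    · rcases hX i with h | ⟨P, h1, h2, z, hz, hzT⟩
      · exact Or.inl (h.image φ)
      · refine Or.inr ⟨P.map φ, ?_, Fin_solv_map φ hφ P h2, φ z, ⟨z, hz, rfl⟩, hT z hzT⟩
        rw [h1]
        rfl
  · rintro _ ⟨g, rfl⟩
    obtain ⟨x, hx, a, ha, hg⟩ := hall g
    refine Set.mem_mul.2 ⟨φ (List.ofFn x).prod, ?_, φ a, ⟨a, ha, rfl⟩, ?_⟩
    · rw [Set.mem_prod_list_ofFn]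
      refine ⟨fun i => ⟨φ (x i), x i, hx i, rfl⟩, ?_⟩
      rw [map_list_prod, List.map_ofFn]
      rfl
    · rw [hg, map_mul]

theorem Fin_rel {Γ : Type} [Group Γ] {n : ℕ} (hBGP : BGP_stmt)
    (φ : Γ →* SLZ n) (hφ : Function.Injective φ) (hR : Rk φ.range)
    (T : Set Γ) (hT : ∀ g ∈ T, IsTv (φ g)) (s : ℕ) (z : Fin s → Γ) (hz : ∀ i, z i ∈ T)
    (hc : ∀ i j, i ≠ j → ∀ a b : ℤ, a ≠ 0 → b ≠ 0 → z i ^ a ≠ z j ^ b)
    (hw : ∀ M : ℕ, ∃ w : List (Fin s × ℤ), w ≠ [] ∧ (w.map Prod.fst).IsChain (fun i j => i ≠ j) ∧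
      (∀ p ∈ w, (M : ℤ) ≤ |p.2|) ∧ (w.map fun p => z p.1 ^ p.2).prod = 1) : False := by
  obtain ⟨M, hM⟩ := hBGP n φ.range hR s (fun i => φ (z i)) (fun i => ⟨⟨z i, rfl⟩, hT _ (hz i)⟩)
    (by
      rintro i j hij ⟨a, b, ha, hb, hab⟩
      refine hc i j hij a b ha hb (hφ ?_)
      rw [map_zpow, map_zpow]
      exact hab)
  obtain ⟨w, h1, h2, h3, h4⟩ := hw M
  refine hM w h1 h2 h3 ?_
  have h5 := congrArg φ h4
  rw [map_list_prod, List.map_map, map_one] at h5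
  rw [← h5]
  congr 1
  apply List.map_congr_left
  intro p _
  simp only [Function.comp_apply, map_zpow]

theorem Fin_emb {n : ℕ} (hn : 3 ≤ n) (Γ : Type) [Group Γ] (hfg : Group.FG Γ)
    (hrf : ∀ g : Γ, g ≠ 1 → ∃ N : Subgroup Γ, N.index ≠ 0 ∧ g ∉ N)
    (hq : ∀ (Q : Type) [Group Q] [Finite Q], (∃ f : Γ →* Q, Function.Surjective f) ↔
      (∃ f : SpecialLinearGroup (Fin n) ℤ →* Q, Function.Surjective f))
    (hG : IsEmpty (Γ ≃* SpecialLinearGroup (Fin n) ℤ)) :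
    ∃ φ : Γ →* SpecialLinearGroup (Fin n) ℤ, Function.Injective φ ∧ ProfDense φ.range ∧ ¬ φ.range.FiniteIndex := by
  obtain ⟨H, hH, ⟨e⟩⟩ := Pool.Agent.UG.Abs_emb n hn Γ hfg hrf hq
  have hi : ¬ H.FiniteIndex := by
    intro hf
    have h1 : H = ⊤ := hH.eq_top hf
    subst h1
    exact hG.false (e.trans Subgroup.topEquiv)
  have hr : (H.subtype.comp e.toMonoidHom).range = H := by
    ext x
    constructor
    · rintro ⟨g, rfl⟩
      exact (e g).2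
    · intro hx
      refine ⟨e.symm ⟨x, hx⟩, ?_⟩
      show ((e (e.symm ⟨x, hx⟩) : H) : SpecialLinearGroup (Fin n) ℤ) = x
      rw [e.apply_symm_apply]
  refine ⟨H.subtype.comp e.toMonoidHom, Subtype.val_injective.comp e.injective, ?_, ?_⟩
  · rw [hr]
    exact hH
  · rw [hr]
    exact hi

theorem Fin_red {n : ℕ} {Γ : Type} [Group Γ] (φ : Γ →* SpecialLinearGroup (Fin n) ℤ)
    (hD : ProfDense φ.range) (p : ℕ) [hp : Fact p.Prime] :
    Function.Surjective ((Pool.Agent.PR.redZ n p).comp φ) := by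
  intro y
  obtain ⟨g, hg⟩ := Pool.Agent.PR.X_RSJ Pool.Agent.PR.LSA n p hp.out.one_le y
  have hfi : (Pool.Agent.PR.redZ n p).ker.FiniteIndex := inferInstance
  have h1 := hD (Pool.Agent.PR.redZ n p).ker inferInstance hfi
  have h2 : g ∈ φ.range ⊔ (Pool.Agent.PR.redZ n p).ker := by
    rw [h1]
    trivial
  obtain ⟨_, ⟨x, rfl⟩, k, hk, hx⟩ := Subgroup.mem_sup_of_normal_right.1 h2
  refine ⟨x, ?_⟩
  rw [← hg, ← hx, map_mul, MonoidHom.mem_ker.1 hk, mul_one]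
  rfl

theorem Fin_tv {n : ℕ} (hITV : ITV_stmt) {Γ : Type} [Group Γ] (φ : Γ →* SpecialLinearGroup (Fin n) ℤ)
    (hφ : Function.Injective φ) (hD : ProfDense φ.range) (g : Γ) (h1 : g ≠ 1)
    (h2 : ∀ (p : ℕ) [Fact p.Prime] (q : Γ →* SpecialLinearGroup (Fin n) (ZMod p)), Function.Surjective q →
      ((q g : Matrix (Fin n) (Fin n) (ZMod p)) - 1).rank ≤ 1) : IsTv (φ g) := by
  refine hITV n (φ g) ?_ ?_
  · intro h
    exact h1 (hφ (h.trans (map_one φ).symm))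
  · intro p hp
    haveI : Fact p.Prime := ⟨hp⟩
    have h3 := h2 p ((Pool.Agent.PR.redZ n p).comp φ) (Fin_red φ hD p)
    have h4 : ((((Pool.Agent.PR.redZ n p).comp φ) g : SpecialLinearGroup (Fin n) (ZMod p)) :
        Matrix (Fin n) (Fin n) (ZMod p)) - 1 =
        (((φ g : Matrix (Fin n) (Fin n) ℤ) - 1).map (fun a : ℤ => (a : ZMod p))) := by
      ext i j
      by_cases hij : i = j
      · subst hij
        simp [Pool.Agent.PR.redZ, SpecialLinearGroup.map_apply_coe, Matrix.sub_apply, Matrix.map_apply]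
      · simp [Pool.Agent.PR.redZ, SpecialLinearGroup.map_apply_coe, Matrix.sub_apply, Matrix.map_apply,
          Matrix.one_apply_ne hij]
    rw [h4] at h3
    exact h3

end Pool.Agent.TF
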