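import Pool.Agent.helper73.TF.Par

/-!
# `SL(n, ℤ)` is a product of five stabilisers of primitive vectors and covectors
-/

set_option autoImplicit false

namespace Pool.Agent.TF

open Matrix Pool.Agent.H48SL

theorem SLp_coprime (a b c α β γ : ℤ) (hb : b ≠ 0) (h : α * a + β * b + γ * c = 1) :
    ∃ s : ℤ, IsCoprime (a + s * c) b := by
  classical
  refine ⟨∏ p ∈ b.natAbs.primeFactors.filter (fun p : ℕ => ¬ (p : ℤ) ∣ a), (p : ℤ), ?_⟩
  rw [Int.isCoprime_iff_gcd_eq_one]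
  by_contra hne
  obtain ⟨p, hp, hpd⟩ := Nat.exists_prime_and_dvd hne
  have hpz : Prime (p : ℤ) := Nat.prime_iff_prime_int.1 hp
  have h1 : (p : ℤ) ∣ a + (∏ p ∈ b.natAbs.primeFactors.filter (fun p : ℕ => ¬ (p : ℤ) ∣ a), (p : ℤ)) * c :=
    (Int.natCast_dvd_natCast.2 hpd).trans (Int.gcd_dvd_left _ _)
  have h2 : (p : ℤ) ∣ b := (Int.natCast_dvd_natCast.2 hpd).trans (Int.gcd_dvd_right _ _)
  by_cases hpa : (p : ℤ) ∣ a
  · have h3 : (p : ℤ) ∣ (∏ p ∈ b.natAbs.primeFactors.filter (fun p : ℕ => ¬ (p : ℤ) ∣ a), (p : ℤ)) * c :=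
      (dvd_add_right hpa).1 h1
    rcases hpz.dvd_or_dvd h3 with h4 | h4
    · obtain ⟨q, hq, hpq⟩ := (Prime.dvd_finset_prod_iff hpz _).1 h4
      rw [Finset.mem_filter, Nat.mem_primeFactors] at hq
      have h5 : p = q := (Nat.prime_dvd_prime_iff_eq hp hq.1.1).1 (Int.natCast_dvd_natCast.1 hpq)
      rw [← h5] at hq
      exact hq.2 hpa
    · have h6 : (p : ℤ) ∣ 1 := by
        rw [← h]
        exact dvd_add (dvd_add (hpa.mul_left _) (h2.mul_left _)) (h4.mul_left _)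
      exact hpz.not_unit (isUnit_of_dvd_one h6)
  · have h3 : (p : ℤ) ∣ ∏ p ∈ b.natAbs.primeFactors.filter (fun p : ℕ => ¬ (p : ℤ) ∣ a), (p : ℤ) := by
      apply Finset.dvd_prod_of_mem (fun p : ℕ => (p : ℤ))
      rw [Finset.mem_filter, Nat.mem_primeFactors]
      exact ⟨⟨hp, Int.natCast_dvd.1 h2, Int.natAbs_ne_zero.2 hb⟩, hpa⟩
    exact hpa ((dvd_add_left (h3.mul_right c)).1 h1)

/-- stable range -/
theorem SLp_range {n : ℕ} (i₀ i₁ l : Fin n) (h01 : i₀ ≠ i₁) (h0l : i₀ ≠ l) (h1l : i₁ ≠ l) (u w : Fin n → ℤ)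
    (hw : w ⬝ᵥ u = 1) : ∃ x y : Fin n → ℤ, x l = 0 ∧ y l = 0 ∧ y ⬝ᵥ (u + u l • x) = 1 := by
  classical
  let J : Finset (Fin n) := Finset.univ.filter fun i => i ≠ i₀ ∧ i ≠ l
  let v : Fin n → ℤ := fun i => if i ∈ J then u i else 0
  have hsplit : ∀ y : Fin n → ℤ, y ⬝ᵥ u = y i₀ * u i₀ + y l * u l + y ⬝ᵥ v := by
    intro y
    have h1 : y ⬝ᵥ u - y ⬝ᵥ v = ∑ i, y i * (u i - v i) := by
      simp only [dotProduct, mul_sub, Finset.sum_sub_distrib]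
    have h2 : ∑ i, y i * (u i - v i) = y i₀ * u i₀ + y l * u l := by
      have h3 : ∀ i, y i * (u i - v i) = (if i = i₀ then y i₀ * u i₀ else 0) + (if i = l then y l * u l else 0) := by
        intro i
        by_cases hi0 : i = i₀
        · subst hi0
          have : v i = 0 := by simp [v, J]
          rw [this, if_pos rfl, if_neg h0l]
          ring
        · by_cases hil : i = l
          · subst hil
            have : v i = 0 := by simp [v, J]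
            rw [this, if_pos rfl, if_neg hi0]
            ring
          · have : v i = u i := by simp [v, J, hi0, hil]
            rw [this, if_neg hi0, if_neg hil]
            ring
      simp only [h3, Finset.sum_add_distrib, Finset.sum_ite_eq', Finset.mem_univ, if_true]
    linarith
  obtain ⟨b, hb⟩ : ∃ b : ℤ, Ideal.span (Set.range v) = Ideal.span {b} := by
    have h1 : (Ideal.span (Set.range v)).IsPrincipal := inferInstance
    exact h1.principal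
  have hbv : ∃ c : Fin n → ℤ, c ⬝ᵥ v = b := by
    have h1 : b ∈ Ideal.span (Set.range v) := by
      rw [hb]
      exact Ideal.mem_span_singleton_self b
    obtain ⟨c, hc⟩ := (Submodule.mem_span_range_iff_exists_fun ℤ).1 h1
    exact ⟨c, by simpa [dotProduct] using hc⟩
  have hdv : ∀ i, b ∣ v i := by
    intro i
    rw [← Ideal.mem_span_singleton, ← hb]
    exact Ideal.subset_span ⟨i, rfl⟩
  obtain ⟨c, hc⟩ := hbv
  have hwv : b ∣ w ⬝ᵥ v := Finset.dvd_sum fun i _ => (hdv i).mul_left _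
  obtain ⟨β, hβ⟩ := hwv
  have hone : w i₀ * u i₀ + β * b + w l * u l = 1 := by
    have h1 := hsplit w
    rw [hw, hβ] at h1
    linarith
  have hvy : ∀ y : Fin n → ℤ, y i₀ = 0 → y l = 0 → y ⬝ᵥ u = y ⬝ᵥ v := by
    intro y h1 h2
    rw [hsplit y, h1, h2]
    ring
  by_cases hb0 : b = 0
  · -- all `v i` vanish
    subst hb0
    have hv0 : ∀ i, v i = 0 := fun i => zero_dvd_iff.1 (hdv i)
    have hu1 : u i₁ = 0 := by
      have h1 := hv0 i₁
      have h2 : v i₁ = u i₁ := by simp [v, J, h01.symm, h1l]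
      rwa [h2] at h1
    refine ⟨Pi.single i₁ 1, Pi.single i₀ (w i₀) + Pi.single i₁ (w l), ?_, ?_, ?_⟩
    · simp [h1l.symm]
    · simp [h0l.symm, h1l.symm]
    · rw [add_dotProduct, single_dotProduct, single_dotProduct]
      simp only [Pi.add_apply, Pi.smul_apply, smul_eq_mul, Pi.single_eq_same, Pi.single_eq_of_ne h01,
        hu1]
      linarith
  · obtain ⟨s, p, q, hpq⟩ := SLp_coprime (u i₀) b (u l) (w i₀) β (w l) hb0 hone
    let c' : Fin n → ℤ := fun i => if i ∈ J then c i else 0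
    have hc'0 : c' i₀ = 0 := by simp [c', J]
    have hc'l : c' l = 0 := by simp [c', J]
    have hc'v : c' ⬝ᵥ v = b := by
      rw [← hc]
      refine Finset.sum_congr rfl fun i _ => ?_
      by_cases hi : i ∈ J
      · simp only [c', if_pos hi]
      · simp only [c', v, if_neg hi]
        ring
    have hc'u : c' ⬝ᵥ u = b := by rw [hvy c' hc'0 hc'l, hc'v]
    refine ⟨Pi.single i₀ s, Pi.single i₀ p + q • c', ?_, ?_, ?_⟩
    · simp [h0l.symm]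
    · simp [h0l.symm, hc'l]
    · rw [add_dotProduct, single_dotProduct, smul_dotProduct, dotProduct_add, hc'u, dotProduct_smul,
        dotProduct_single, hc'0]
      simp only [Pi.add_apply, Pi.smul_apply, smul_eq_mul, Pi.single_eq_same]
      linarith

/-- the stabiliser of the vector `w` -/
def stV {n : ℕ} (w : Fin n → ℤ) : Subgroup (SLZ n) where
  carrier := {g | (g : Matrix (Fin n) (Fin n) ℤ) *ᵥ w = w}
  one_mem' := by
    show ((1 : SLZ n) : Matrix (Fin n) (Fin n) ℤ) *ᵥ w = w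
    rw [Matrix.SpecialLinearGroup.coe_one, one_mulVec]
  mul_mem' := by
    intro g h hg hh
    show ((g * h : SLZ n) : Matrix (Fin n) (Fin n) ℤ) *ᵥ w = w
    rw [Matrix.SpecialLinearGroup.coe_mul, ← mulVec_mulVec, hh, hg]
  inv_mem' := by
    intro g hg
    show ((g⁻¹ : SLZ n) : Matrix (Fin n) (Fin n) ℤ) *ᵥ w = w
    conv_lhs => rw [← hg]
    rw [mulVec_mulVec, ← Matrix.SpecialLinearGroup.coe_mul, inv_mul_cancel, Matrix.SpecialLinearGroup.coe_one,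
      one_mulVec]

/-- the stabiliser of the covector `f` -/
def stF {n : ℕ} (f : Fin n → ℤ) : Subgroup (SLZ n) where
  carrier := {g | f ᵥ* (g : Matrix (Fin n) (Fin n) ℤ) = f}
  one_mem' := by
    show f ᵥ* ((1 : SLZ n) : Matrix (Fin n) (Fin n) ℤ) = f
    rw [Matrix.SpecialLinearGroup.coe_one, vecMul_one]
  mul_mem' := by
    intro g h hg hh
    show f ᵥ* ((g * h : SLZ n) : Matrix (Fin n) (Fin n) ℤ) = f
    rw [Matrix.SpecialLinearGroup.coe_mul, ← vecMul_vecMul, hg, hh]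
  inv_mem' := by
    intro g hg
    show f ᵥ* ((g⁻¹ : SLZ n) : Matrix (Fin n) (Fin n) ℤ) = f
    conv_lhs => rw [← hg]
    rw [vecMul_vecMul, ← Matrix.SpecialLinearGroup.coe_mul, mul_inv_cancel, Matrix.SpecialLinearGroup.coe_one,
      vecMul_one]

theorem SLp_comm {n : ℕ} {v f v' f' : Fin n → ℤ} (h : f ⬝ᵥ v = 0) (h' : f' ⬝ᵥ v' = 0) (h1 : f ⬝ᵥ v' = 0)
    (h2 : f' ⬝ᵥ v = 0) : Commute (tv v f) (tv v' f') := by
  apply SL_ext
  rw [Matrix.SpecialLinearGroup.coe_mul, Matrix.SpecialLinearGroup.coe_mul, tv_coe h, tv_coe h']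
  rw [Matrix.add_mul, Matrix.mul_add, Matrix.mul_add, Matrix.add_mul, Matrix.mul_add, Matrix.mul_add,
    vecMulVec_mul_vecMulVec, vecMulVec_mul_vecMulVec, h1, h2]
  simp only [Matrix.one_mul, Matrix.mul_one, zero_smul, vecMulVec_zero, add_zero]
  abel

theorem SLp_stV {n : ℕ} {v f : Fin n → ℤ} (h : f ⬝ᵥ v = 0) (p : SLZ n) (hp : p ∈ stV v) :
    Commute (tv v f) (p * tv v f * p⁻¹) := by
  rw [tv_conj h]
  have h1 : (p : Matrix (Fin n) (Fin n) ℤ) *ᵥ v = v := hp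
  have h2 : (f ᵥ* ((p⁻¹ : SLZ n) : Matrix (Fin n) (Fin n) ℤ)) ⬝ᵥ v = 0 := by
    rw [← dotProduct_mulVec, (stV v).inv_mem hp, h]
  rw [h1]
  exact SLp_comm h h2 h h2

theorem SLp_stF {n : ℕ} {v f : Fin n → ℤ} (h : f ⬝ᵥ v = 0) (p : SLZ n) (hp : p ∈ stF f) :
    Commute (tv v f) (p * tv v f * p⁻¹) := by
  rw [tv_conj h]
  have h1 : f ᵥ* ((p⁻¹ : SLZ n) : Matrix (Fin n) (Fin n) ℤ) = f := (stF f).inv_mem hp
  have h2 : f ⬝ᵥ ((p : Matrix (Fin n) (Fin n) ℤ) *ᵥ v) = 0 := by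
    rw [dotProduct_mulVec]
    have h3 : f ᵥ* (p : Matrix (Fin n) (Fin n) ℤ) = f := hp
    rw [h3, h]
  rw [h1]
  exact SLp_comm h h2 h2 h

theorem SLp_five {n : ℕ} (i₀ i₁ l : Fin n) (h01 : i₀ ≠ i₁) (h0l : i₀ ≠ l) (h1l : i₁ ≠ l) (g : SLZ n) :
    ∃ a b c d e : SLZ n, a ∈ stF (Pi.single l (1 : ℤ)) ∧ b ∈ stV (Pi.single l (1 : ℤ)) ∧
      c ∈ stF (Pi.single l (1 : ℤ)) ∧ d ∈ stV (Pi.single l (1 : ℤ)) ∧ e ∈ stV (Pi.single i₀ (1 : ℤ)) ∧
      g = a * b * c * d * e := by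
  obtain ⟨u, hu⟩ : ∃ u : Fin n → ℤ, u = (g : Matrix (Fin n) (Fin n) ℤ) *ᵥ Pi.single i₀ (1 : ℤ) := ⟨_, rfl⟩
  have hw : (Pi.single i₀ (1 : ℤ) ᵥ* ((g⁻¹ : SLZ n) : Matrix (Fin n) (Fin n) ℤ)) ⬝ᵥ u = 1 := by
    rw [hu, ← dotProduct_mulVec, mulVec_mulVec, ← Matrix.SpecialLinearGroup.coe_mul, inv_mul_cancel,
      Matrix.SpecialLinearGroup.coe_one, one_mulVec]
    simp
  obtain ⟨x, y, hx, hy, hxy⟩ := SLp_range i₀ i₁ l h01 h0l h1l u _ hw
  have memF : ∀ x : Fin n → ℤ, x l = 0 → tv x (Pi.single l (1 : ℤ)) ∈ stF (Pi.single l (1 : ℤ)) := by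
    intro x hx
    have h0 : (Pi.single l (1 : ℤ) : Fin n → ℤ) ⬝ᵥ x = 0 := by rw [single_dotProduct, hx, mul_zero]
    show (Pi.single l (1 : ℤ)) ᵥ* ((tv x (Pi.single l (1 : ℤ)) : SLZ n) : Matrix (Fin n) (Fin n) ℤ) = _
    rw [tv_vecMul h0, h0, zero_smul, add_zero]
  have memV : ∀ y : Fin n → ℤ, y l = 0 → tv (Pi.single l (1 : ℤ)) y ∈ stV (Pi.single l (1 : ℤ)) := by
    intro y hy
    have h0 : y ⬝ᵥ (Pi.single l (1 : ℤ) : Fin n → ℤ) = 0 := by rw [dotProduct_single, hy, zero_mul]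
    show ((tv (Pi.single l (1 : ℤ)) y : SLZ n) : Matrix (Fin n) (Fin n) ℤ) *ᵥ (Pi.single l (1 : ℤ)) = _
    rw [tv_mulVec h0, h0, zero_smul, add_zero]
  have actF : ∀ x u : Fin n → ℤ, x l = 0 →
      ((tv x (Pi.single l (1 : ℤ)) : SLZ n) : Matrix (Fin n) (Fin n) ℤ) *ᵥ u = u + u l • x := by
    intro x u hx
    have h0 : (Pi.single l (1 : ℤ) : Fin n → ℤ) ⬝ᵥ x = 0 := by rw [single_dotProduct, hx, mul_zero]
    rw [tv_mulVec h0, single_dotProduct, one_mul]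
  have actV : ∀ y u : Fin n → ℤ, y l = 0 →
      ((tv (Pi.single l (1 : ℤ)) y : SLZ n) : Matrix (Fin n) (Fin n) ℤ) *ᵥ u = u + (y ⬝ᵥ u) • Pi.single l (1 : ℤ) := by
    intro y u hy
    have h0 : y ⬝ᵥ (Pi.single l (1 : ℤ) : Fin n → ℤ) = 0 := by rw [dotProduct_single, hy, zero_mul]
    rw [tv_mulVec h0]
  obtain ⟨u1, hu1⟩ : ∃ u1, u1 = u + u l • x := ⟨_, rfl⟩
  have hu1l : u1 l = u l := by rw [hu1]; simp [hx]
  obtain ⟨y', hy'⟩ : ∃ y', y' = (1 - u l) • y := ⟨_, rfl⟩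
  have hy'l : y' l = 0 := by rw [hy']; simp [hy]
  obtain ⟨u2, hu2⟩ : ∃ u2, u2 = u1 + (y' ⬝ᵥ u1) • (Pi.single l (1 : ℤ) : Fin n → ℤ) := ⟨_, rfl⟩
  have hu2l : u2 l = 1 := by
    rw [hu2, hy', smul_dotProduct, hu1, hxy]
    simp [hx]
  obtain ⟨x', hx'⟩ : ∃ x' : Fin n → ℤ, x' = Pi.single i₀ (1 : ℤ) + Pi.single l (1 : ℤ) - u2 := ⟨_, rfl⟩
  have hx'l : x' l = 0 := by
    rw [hx']
    simp [hu2l, h0l.symm]
  have hd : (-(Pi.single i₀ (1 : ℤ)) : Fin n → ℤ) l = 0 := by simp [h0l.symm]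
  refine ⟨(tv x (Pi.single l (1 : ℤ)))⁻¹, (tv (Pi.single l (1 : ℤ)) y')⁻¹, (tv x' (Pi.single l (1 : ℤ)))⁻¹,
    (tv (Pi.single l (1 : ℤ)) (-(Pi.single i₀ (1 : ℤ))))⁻¹,
    tv (Pi.single l (1 : ℤ)) (-(Pi.single i₀ (1 : ℤ))) * tv x' (Pi.single l (1 : ℤ)) *
      tv (Pi.single l (1 : ℤ)) y' * tv x (Pi.single l (1 : ℤ)) * g,
    (stF _).inv_mem (memF x hx), (stV _).inv_mem (memV y' hy'l), (stF _).inv_mem (memF x' hx'l),
    (stV _).inv_mem (memV _ hd), ?_, by group⟩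
  show ((tv (Pi.single l (1 : ℤ)) (-(Pi.single i₀ (1 : ℤ))) * tv x' (Pi.single l (1 : ℤ)) *
      tv (Pi.single l (1 : ℤ)) y' * tv x (Pi.single l (1 : ℤ)) * g : SLZ n) : Matrix (Fin n) (Fin n) ℤ) *ᵥ
      Pi.single i₀ (1 : ℤ) = Pi.single i₀ (1 : ℤ)
  rw [Matrix.SpecialLinearGroup.coe_mul, Matrix.SpecialLinearGroup.coe_mul, Matrix.SpecialLinearGroup.coe_mul,
    Matrix.SpecialLinearGroup.coe_mul, ← mulVec_mulVec, ← mulVec_mulVec, ← mulVec_mulVec, ← mulVec_mulVec, ← hu,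
    actF x u hx, ← hu1, actV y' u1 hy'l, ← hu2, actF x' u2 hx'l, actV _ _ hd, hu2l, hx']
  ext i
  simp only [Pi.add_apply, Pi.smul_apply, Pi.sub_apply, smul_eq_mul, one_mul, neg_dotProduct, single_dotProduct]
  simp only [Pi.single_eq_same, Pi.single_eq_of_ne h0l, add_zero]
  ring

end Pool.Agent.TF
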