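import Pool.Agent.helper73.TF.Fin
import Pool.Agent.helper73.TF.SLprod
import Pool.Agent.helper50.TF.ITV
import Pool.Agent.helper48.PR.AsmC

/-!
# Intrinsic transvections
-/

set_option autoImplicit false

namespace Pool.Agent.TF

open Matrix Pool.Agent.H48SL
open scoped Pointwise

/-- `g` acts as a transvection in all complex representations of dimension `n` with infinite image. -/
def ITr (n : ℕ) {Γ : Type} [Group Γ] (g : Γ) : Prop :=
  g ≠ 1 ∧ ∀ ρ : Γ →* GL (Fin n) ℂ, (Set.range ρ).Infinite → ((ρ g : Matrix (Fin n) (Fin n) ℂ) - 1).rank ≤ 1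

theorem Fin_decomp {n : ℕ} (g : SLZ n) (hg : g ≠ 1)
    (h : ∀ i i' j j' : Fin n, ((g : Matrix (Fin n) (Fin n) ℤ) - 1) i j * ((g : Matrix (Fin n) (Fin n) ℤ) - 1) i' j' =
      ((g : Matrix (Fin n) (Fin n) ℤ) - 1) i j' * ((g : Matrix (Fin n) (Fin n) ℤ) - 1) i' j) : IsTv g := by
  have hN : ((g : Matrix (Fin n) (Fin n) ℤ) - 1) ≠ 0 := by
    intro h1
    apply hg
    apply SL_ext
    rw [sub_eq_zero] at h1
    rw [h1, Matrix.SpecialLinearGroup.coe_one]
  obtain ⟨v, f, hv, hf, hvf⟩ := ITV_decomp _ hN h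
  have hg1 : (g : Matrix (Fin n) (Fin n) ℤ) = 1 + vecMulVec v f := by
    rw [← hvf]; abel
  have hdot : f ⬝ᵥ v = 0 := by
    have h1 := det_one_add_vecMulVec v f
    rw [← hg1, Matrix.SpecialLinearGroup.det_coe] at h1
    linarith
  refine ⟨v, f, hv, hf, hdot, ?_⟩
  apply SL_ext
  rw [tv_coe hdot, hg1]

/-- the complex representation -/
noncomputable def toC (n : ℕ) : SLZ n →* GL (Fin n) ℂ :=
  (Matrix.SpecialLinearGroup.toGL).comp (SpecialLinearGroup.map (Int.castRingHom ℂ))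

theorem toC_coe {n : ℕ} (g : SLZ n) (i j : Fin n) :
    ((toC n g : GL (Fin n) ℂ) : Matrix (Fin n) (Fin n) ℂ) i j = (((g : Matrix (Fin n) (Fin n) ℤ) i j : ℤ) : ℂ) := by
  simp [toC]

theorem toC_inj (n : ℕ) : Function.Injective (toC n) := by
  intro g h hgh
  apply SL_ext
  ext i j
  have h1 := toC_coe g i j
  rw [hgh, toC_coe] at h1
  exact_mod_cast h1.symm

theorem Fin_inf {n : ℕ} (hn : 3 ≤ n) {Γ : Type} [Group Γ] (φ : Γ →* SpecialLinearGroup (Fin n) ℤ)
    (hD : ProfDense φ.range) : Infinite Γ := by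
  by_contra hfin
  rw [not_infinite_iff_finite] at hfin
  obtain ⟨p, hp, hpp⟩ := Nat.exists_infinite_primes (Nat.card Γ + 1)
  haveI : Fact p.Prime := ⟨hpp⟩
  haveI : NeZero p := ⟨hpp.ne_zero⟩
  have hs := Fin_red φ hD p
  have h1 : Nat.card (SpecialLinearGroup (Fin n) (ZMod p)) ≤ Nat.card Γ := Nat.card_le_card_of_surjective _ hs
  let i : Fin n := ⟨0, by omega⟩
  let j : Fin n := ⟨1, by omega⟩
  have hij : i ≠ j := by
    intro h
    have := congrArg Fin.val h
    simp [i, j] at this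
  have h2 : Nat.card (ZMod p) ≤ Nat.card (SpecialLinearGroup (Fin n) (ZMod p)) := by
    refine Nat.card_le_card_of_injective
      (fun a : ZMod p => (⟨Matrix.transvection i j a, Matrix.det_transvection_of_ne i j hij a⟩ :
        SpecialLinearGroup (Fin n) (ZMod p))) ?_
    intro a b hab
    have h3 := congrArg (fun g : SpecialLinearGroup (Fin n) (ZMod p) => (g : Matrix (Fin n) (Fin n) (ZMod p)) i j) hab
    simpa [Matrix.transvection, Matrix.one_apply_ne hij] using h3
  rw [Nat.card_zmod] at h2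
  omega

theorem Fin_ITr {n : ℕ} {Γ : Type} [Group Γ] [Infinite Γ] (φ : Γ →* SpecialLinearGroup (Fin n) ℤ)
    (hφ : Function.Injective φ) (g : Γ) (h : ITr n g) : IsTv (φ g) := by
  obtain ⟨h1, h2⟩ := h
  have hinj : Function.Injective ((toC n).comp φ) := (toC_inj n).comp hφ
  have h3 := h2 ((toC n).comp φ) (Set.infinite_range_of_injective hinj)
  refine Fin_decomp (φ g) (fun h => h1 (hφ (h.trans (map_one φ).symm))) fun i i' j j' => ?_
  have h4 := ITV_field _ h3 i i' j j'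
  have h5 : ∀ i j, (((((toC n).comp φ) g : GL (Fin n) ℂ) : Matrix (Fin n) (Fin n) ℂ) - 1) i j =
      ((((φ g : Matrix (Fin n) (Fin n) ℤ) - 1) i j : ℤ) : ℂ) := by
    intro i j
    rw [Matrix.sub_apply, Matrix.sub_apply]
    have h6 : ((((toC n).comp φ) g : GL (Fin n) ℂ) : Matrix (Fin n) (Fin n) ℂ) i j =
        (((φ g : Matrix (Fin n) (Fin n) ℤ) i j : ℤ) : ℂ) := toC_coe (φ g) i j
    rw [h6]
    by_cases hij : i = j
    · subst hij
      simp
    · simp [Matrix.one_apply_ne hij]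
  rw [h5, h5, h5, h5] at h4
  exact_mod_cast h4

theorem Fin_rank {n : ℕ} (x y A : Matrix (Fin n) (Fin n) ℂ) (hxy : x * y = 1) (v f : Fin n → ℂ)
    (hA : A = 1 + vecMulVec v f) : (x * A * y - 1).rank ≤ 1 := by
  have h1 : x * A * y - 1 = x * (vecMulVec v f) * y := by
    rw [hA, Matrix.mul_add, Matrix.add_mul, Matrix.mul_one, hxy]
    abel
  rw [h1]
  exact (Matrix.rank_mul_le_left _ _).trans ((Matrix.rank_mul_le_right _ _).trans (Matrix.rank_vecMulVec_le _ _))

theorem Fin_SL {n : ℕ} (hn : 3 ≤ n) {Γ : Type} [Group Γ] (e : Γ ≃* SpecialLinearGroup (Fin n) ℤ)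
    (z : SLZ n) (v f : Fin n → ℤ) (h : Tv z v f) : ITr n (e.symm z) := by
  refine ⟨?_, ?_⟩
  · intro h1
    exact TRK_ne_one h (by rw [← e.apply_symm_apply z, h1, map_one])
  · intro ρ hρ
    let r : SLZ n →* Matrix (Fin n) (Fin n) ℂ := (Units.coeHom _).comp (ρ.comp e.symm.toMonoidHom)
    have hr : (Set.range r).Infinite := by
      have h1 : Set.range r = Units.val '' Set.range ρ := by
        ext M
        constructor
        · rintro ⟨g, rfl⟩
          exact ⟨ρ (e.symm g), ⟨_, rfl⟩, rfl⟩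
        · rintro ⟨_, ⟨g, rfl⟩, rfl⟩
          refine ⟨e g, ?_⟩
          show ((ρ (e.symm (e g)) : GL (Fin n) ℂ) : Matrix (Fin n) (Fin n) ℂ) = _
          rw [e.symm_apply_apply]
      rw [h1]
      exact hρ.image Units.val_injective.injOn
    obtain ⟨x, y, hxy, hyx, h2⟩ := Pool.Agent.PR.tCL n hn ℂ r hr
    have hz : ((ρ (e.symm z) : GL (Fin n) ℂ) : Matrix (Fin n) (Fin n) ℂ) = r z := rfl
    rw [hz]
    have hzz : (z : Matrix (Fin n) (Fin n) ℤ) = 1 + vecMulVec v f := by rw [h.eq, tv_coe h.dot]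
    have hzi : ((z⁻¹ : SLZ n) : Matrix (Fin n) (Fin n) ℤ) = 1 + vecMulVec v (-f) := by
      have h3 : z⁻¹ = tv v (-f) := by rw [tv_neg_right h.dot, ← h.eq]
      rw [h3, tv_coe (by rw [neg_dotProduct, h.dot, neg_zero])]
    rcases h2 with h2 | h2
    · rw [h2]
      refine Fin_rank x y _ hxy (fun i => (v i : ℂ)) (fun i => (f i : ℂ)) ?_
      unfold Pool.Agent.PR.stdM
      rw [hzz]
      ext i j
      by_cases hij : i = j
      · subst hij
        simp [vecMulVec_apply]
      · simp [vecMulVec_apply, Matrix.one_apply_ne hij]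
    · rw [h2]
      refine Fin_rank x y _ hxy (fun i => ((-f) i : ℂ)) (fun i => (v i : ℂ)) ?_
      unfold Pool.Agent.PR.duM Pool.Agent.PR.stdM
      rw [hzi]
      ext i j
      by_cases hij : i = j
      · subst hij
        simp [vecMulVec_apply, mul_comm]
      · simp [vecMulVec_apply, Matrix.one_apply_ne hij, Matrix.one_apply_ne (Ne.symm hij), mul_comm]

end Pool.Agent.TF
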