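import Pool.Agent.helper73.TF.TRK
import Pool.Agent.helper90.TF.VCY

/-!
# Subgroups which fix the centre or the axis of a transvection
-/

set_option autoImplicit false

namespace Pool.Agent.TF

open Matrix Pool.Agent.H48SL

theorem Par_CP_trans {G : Type} [Group G] {x y z : G} (h1 : CP x y) (h2 : CP y z) : CP x z := by
  obtain ⟨a, b, ha, hb, hab⟩ := h1
  obtain ⟨c, d, hc, hd, hcd⟩ := h2
  refine ⟨a * c, d * b, mul_ne_zero ha hc, mul_ne_zero hd hb, ?_⟩
  rw [_root_.zpow_mul, hab, mul_comm d b, _root_.zpow_mul z b d, ← _root_.zpow_mul, mul_comm b c, _root_.zpow_mul y c b, hcd,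
    ← _root_.zpow_mul, ← _root_.zpow_mul, mul_comm]

theorem Par_CP_symm {G : Type} [Group G] {x y : G} (h1 : CP x y) : CP y x := by
  obtain ⟨a, b, ha, hb, hab⟩ := h1
  exact ⟨b, a, hb, ha, hab.symm⟩

theorem Par_CP_conj {G : Type} [Group G] {x y : G} (g : G) (h1 : CP x y) : CP (g * x * g⁻¹) (g * y * g⁻¹) := by
  obtain ⟨a, b, ha, hb, hab⟩ := h1
  exact ⟨a, b, ha, hb, by rw [conj_zpow, conj_zpow, hab]⟩

/-- the commensurator of the group generated by `z` -/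
def ParK {G : Type} [Group G] (z : G) : Subgroup G where
  carrier := {g | CP z (g * z * g⁻¹)}
  one_mem' := ⟨1, 1, one_ne_zero, one_ne_zero, by simp⟩
  mul_mem' := by
    intro g h hg hh
    have h1 := Par_CP_conj g hh
    have h2 := Par_CP_trans hg h1
    show CP z (g * h * z * (g * h)⁻¹)
    have h3 : g * h * z * (g * h)⁻¹ = g * (h * z * h⁻¹) * g⁻¹ := by group
    rw [h3]
    exact h2
  inv_mem' := by
    intro g hg
    have h1 := Par_CP_conj g⁻¹ hg
    have h2 : g⁻¹ * (g * z * g⁻¹) * g⁻¹⁻¹ = z := by group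
    rw [h2] at h1
    exact Par_CP_symm h1

theorem Par_dot {n : ℕ} {v f v' f' : Fin n → ℤ} (h : Tv (tv v f) v f) (h' : Tv (tv v' f') v' f')
    (hc : Commute (tv v f) (tv v' f')) : f ⬝ᵥ v' = 0 := by
  have h1 : (tv v f : Matrix (Fin n) (Fin n) ℤ) * (tv v' f' : Matrix (Fin n) (Fin n) ℤ) =
      (tv v' f' : Matrix (Fin n) (Fin n) ℤ) * (tv v f : Matrix (Fin n) (Fin n) ℤ) := by
    have h2 := congrArg (fun g : SLZ n => (g : Matrix (Fin n) (Fin n) ℤ)) hc.eq
    simpa only [Matrix.SpecialLinearGroup.coe_mul] using h2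
  rw [tv_coe h.dot, tv_coe h'.dot] at h1
  have h3 : vecMulVec v f * vecMulVec v' f' = vecMulVec v' f' * vecMulVec v f := by
    have h4 : (1 + vecMulVec v f) * (1 + vecMulVec v' f') - 1 - vecMulVec v f - vecMulVec v' f' =
        (1 + vecMulVec v' f') * (1 + vecMulVec v f) - 1 - vecMulVec v f - vecMulVec v' f' := by
      rw [h1]
    have h5 : (1 + vecMulVec v f) * (1 + vecMulVec v' f') - 1 - vecMulVec v f - vecMulVec v' f' =
        vecMulVec v f * vecMulVec v' f' := by noncomm_ring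
    have h6 : (1 + vecMulVec v' f') * (1 + vecMulVec v f) - 1 - vecMulVec v f - vecMulVec v' f' =
        vecMulVec v' f' * vecMulVec v f := by noncomm_ring
    rw [h5, h6] at h4
    exact h4
  by_contra h0
  have h7 : ∀ i j, (f ⬝ᵥ v') * (v i * f' j) = (f' ⬝ᵥ v) * (v' i * f j) := by
    intro i j
    have h8 := congrFun (congrFun h3 i) j
    rw [vecMulVec_mul_vecMulVec, vecMulVec_mul_vecMulVec, vecMulVec_apply, vecMulVec_apply] at h8
    simp only [Pi.smul_apply, smul_eq_mul] at h8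
    linarith
  have h9 : (f' ⬝ᵥ v) * (f ⬝ᵥ v') = 0 := by
    obtain ⟨j, hj⟩ := Function.ne_iff.mp h.ne_f
    have h10 : ∑ i, f i * ((f ⬝ᵥ v') * (v i * f' j)) = ∑ i, f i * ((f' ⬝ᵥ v) * (v' i * f j)) :=
      Finset.sum_congr rfl fun i _ => by rw [h7 i j]
    have h11 : ∑ i, f i * ((f ⬝ᵥ v') * (v i * f' j)) = (f ⬝ᵥ v') * (f ⬝ᵥ v) * f' j := by
      have e1 : f ⬝ᵥ v = ∑ i, f i * v i := rfl
      rw [e1, Finset.mul_sum, Finset.sum_mul]
      exact Finset.sum_congr rfl fun i _ => by ring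
    have h12 : ∑ i, f i * ((f' ⬝ᵥ v) * (v' i * f j)) = (f' ⬝ᵥ v) * (f ⬝ᵥ v') * f j := by
      have e1 : f ⬝ᵥ v' = ∑ i, f i * v' i := rfl
      rw [e1, Finset.mul_sum, Finset.sum_mul]
      exact Finset.sum_congr rfl fun i _ => by ring
    rw [h11, h12, h.dot, mul_zero, zero_mul] at h10
    rcases mul_eq_zero.1 h10.symm with h13 | h13
    · exact h13
    · exact absurd h13 hj
  rcases mul_eq_zero.1 h9 with h10 | h10
  · obtain ⟨i, hi⟩ := Function.ne_iff.mp h.ne_v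
    obtain ⟨j, hj⟩ := Function.ne_iff.mp h'.ne_f
    have h11 := h7 i j
    rw [h10, zero_mul] at h11
    rcases mul_eq_zero.1 h11 with h12 | h12
    · exact h0 h12
    · rcases mul_eq_zero.1 h12 with h13 | h13
      · exact hi h13
      · exact hj h13
  · exact h0 h10

theorem Par_tv_conj {n : ℕ} {z : SLZ n} {v f : Fin n → ℤ} (h : Tv z v f) (g : SLZ n) :
    Tv (g * z * g⁻¹) ((g : Matrix (Fin n) (Fin n) ℤ) *ᵥ v)
      (f ᵥ* ((g⁻¹ : SLZ n) : Matrix (Fin n) (Fin n) ℤ)) := by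
  refine ⟨?_, ?_, ?_, ?_⟩
  · intro h1
    apply h.ne_v
    have h2 : ((g⁻¹ : SLZ n) : Matrix (Fin n) (Fin n) ℤ) *ᵥ ((g : Matrix (Fin n) (Fin n) ℤ) *ᵥ v) = v := by
      rw [mulVec_mulVec, ← Matrix.SpecialLinearGroup.coe_mul, inv_mul_cancel, Matrix.SpecialLinearGroup.coe_one,
        one_mulVec]
    rw [← h2, h1, mulVec_zero]
  · intro h1
    apply h.ne_f
    have h2 : (f ᵥ* ((g⁻¹ : SLZ n) : Matrix (Fin n) (Fin n) ℤ)) ᵥ* (g : Matrix (Fin n) (Fin n) ℤ) = f := by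
      rw [vecMul_vecMul, ← Matrix.SpecialLinearGroup.coe_mul, inv_mul_cancel, Matrix.SpecialLinearGroup.coe_one,
        vecMul_one]
    rw [← h2, h1, zero_vecMul]
  · rw [vecMul_inv_dot, h.dot]
  · conv_lhs => rw [h.eq]
    exact tv_conj h.dot g

theorem Par {n : ℕ} (hFIX : FIX_stmt) (H : Subgroup (SLZ n)) (hR : Rk H) (P : Subgroup (SLZ n)) (hP : P ≤ H)
    (z : SLZ n) (hz : z ∈ H) (ht : IsTv z) (hc : ∀ p ∈ P, Commute z (p * z * p⁻¹)) :
    VSol (P ⊔ Subgroup.zpowers z) := by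
  obtain ⟨v, f, h⟩ := ht
  have hzz : z = tv v f := h.eq
  have hPK : P ≤ ParK z := by
    intro p hp
    by_contra hcp
    have h1 := Par_tv_conj h p
    have h2 := (hR.pair z (p * z * p⁻¹) v f _ _ hz (H.mul_mem (H.mul_mem (hP hp) hz) (H.inv_mem (hP hp)))
      h h1 hcp).1
    apply h2
    have h3 := hc p hp
    have h4 := h1.eq
    have h5 : Tv (tv v f) v f := by
      have h6 := h
      rw [hzz] at h6
      exact h6
    have h7 := h1
    rw [h4] at h7
    refine Par_dot h5 h7 ?_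
    rw [← h4, ← hzz]
    exact h3
  have hle : P ⊔ Subgroup.zpowers z ≤ ParK z ⊓ H := by
    refine sup_le (le_inf hPK hP) ?_
    rw [Subgroup.zpowers_le]
    refine ⟨⟨1, 1, one_ne_zero, one_ne_zero, by simp⟩, hz⟩
  have hpow : ∀ p ∈ P ⊔ Subgroup.zpowers z, ∃ k : ℕ, 1 ≤ k ∧ ∃ m : ℤ, p ^ k = z ^ m := by
    intro p hp
    obtain ⟨⟨a, b, ha, hb, hab⟩, hpH⟩ := hle hp
    refine hR.stab z p v f hz hpH h ?_
    apply VCY_dot p v f h.ne_v h.dot a b ha
    rw [← hzz]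
    exact hab
  have hzP : z ∈ P ⊔ Subgroup.zpowers z := (le_sup_right : Subgroup.zpowers z ≤ _) (Subgroup.mem_zpowers z)
  refine ⟨Subgroup.zpowers z, le_sup_right, ?_, hFIX n _ z v f hzP h hpow⟩
  refine Group.isSolvable_of_comm ?_
  rintro ⟨_, a, rfl⟩ ⟨_, b, rfl⟩
  exact Subtype.ext (Commute.zpow_zpow_self z a b).eq

end Pool.Agent.TF
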