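import Pool.Agent.helper48.SLn.Final
import Pool.Agent.helper5.PR.SpecZ

/-!
# Transvections in the thin subgroups of `SL(n, ℤ)`: big powers and products

`H` is a Zariski dense subgroup of infinite index of `SL(n, ℤ)`, `n ≥ 3`.
-/

set_option autoImplicit false

namespace Pool.Agent.TF

open Matrix Pool.Agent.H48SL
open scoped Pointwise

/-- `SL(n, ℤ)` -/
abbrev SLZ (n : ℕ) := SpecialLinearGroup (Fin n) ℤ

/-- the complex matrix of `g` -/
noncomputable def cm {n : ℕ} (g : SLZ n) : Matrix (Fin n) (Fin n) ℂ :=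
  (g : Matrix (Fin n) (Fin n) ℤ).map (fun a : ℤ => (a : ℂ))

/-- an integral vector as a complex vector -/
noncomputable def cv {n : ℕ} (v : Fin n → ℤ) : Fin n → ℂ := fun i => (v i : ℂ)

/-- the square of the euclidean norm -/
noncomputable def nsq {n : ℕ} (x : Fin n → ℂ) : ℝ := ∑ i, ‖x i‖ ^ 2

/-- the orthogonal projector to the complex line of `x` (the point of the projective space given by `x`) -/
noncomputable def pr {n : ℕ} (x : Fin n → ℂ) : Matrix (Fin n) (Fin n) ℂ :=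
  ((nsq x : ℂ)⁻¹) • vecMulVec x (star x)

/-- `z` is the transvection `1 + v ⊗ f`, `v, f ≠ 0`, `f v = 0` -/
structure Tv {n : ℕ} (z : SLZ n) (v f : Fin n → ℤ) : Prop where
  ne_v : v ≠ 0
  ne_f : f ≠ 0
  dot : f ⬝ᵥ v = 0
  eq : z = tv v f

/-- `z` is a transvection -/
def IsTv {n : ℕ} (z : SLZ n) : Prop := ∃ v f : Fin n → ℤ, Tv z v f

/-- `z` and `z'` have a common power -/
def CP {G : Type} [Group G] (z z' : G) : Prop := ∃ a b : ℤ, a ≠ 0 ∧ b ≠ 0 ∧ z ^ a = z' ^ b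

/-- The two properties of the transvections of a thin group which are used. -/
structure Rk {n : ℕ} (H : Subgroup (SLZ n)) : Prop where
  pair : ∀ (z z' : SLZ n) (v f v' f' : Fin n → ℤ), z ∈ H → z' ∈ H → Tv z v f → Tv z' v' f' → ¬ CP z z' →
    f ⬝ᵥ v' ≠ 0 ∧ f' ⬝ᵥ v ≠ 0
  stab : ∀ (z g : SLZ n) (v f : Fin n → ℤ), z ∈ H → g ∈ H → Tv z v f →
    f ⬝ᵥ ((g : Matrix (Fin n) (Fin n) ℤ) *ᵥ v) = 0 → ∃ k : ℕ, 1 ≤ k ∧ ∃ m : ℤ, g ^ k = z ^ m

/-- the word `z_1 ^ a_1 * ... * z_r ^ a_r` -/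
def word {G : Type} [Group G] {r : ℕ} (z : Fin r → G) (a : Fin r → ℤ) : G :=
  (List.ofFn fun i => z i ^ a i).prod

/-- the countable set of the limit points of the words: the points of the orbit of `x` under `SL(n, ℤ)` and the
rational points -/
def KK {n : ℕ} (x : Fin n → ℂ) : Set (Matrix (Fin n) (Fin n) ℂ) :=
  {M | ∃ g : SLZ n, M = pr (cm g *ᵥ x)} ∪ {M | ∃ v : Fin n → ℤ, v ≠ 0 ∧ M = pr (cv v)}

/-- `P` has a solvable subgroup of finite index -/
def VSol {G : Type} [Group G] (P : Subgroup G) : Prop :=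
  ∃ S : Subgroup G, S ≤ P ∧ Group.IsSolvable S ∧ S.relIndex P ≠ 0

/-- A factor in `H`: a finite subset, or a virtually solvable subgroup which contains a transvection. -/
def Fac {n : ℕ} (H : Subgroup (SLZ n)) (X : Set (SLZ n)) : Prop :=
  X ⊆ H ∧ (X.Finite ∨ ∃ P : Subgroup (SLZ n), X = P ∧ VSol P ∧ ∃ z ∈ P, IsTv z)

/-- **TRK** [short]. From `final_pairs` and `final_coef` of helper48: if `f ⬝ᵥ v' = 0` or `f' ⬝ᵥ v = 0` then the trace of
`z * z'` is `n`, since it is `n + (f ⬝ᵥ v') * (f' ⬝ᵥ v)`, so `final_pairs` gives `H.FiniteIndex`. -/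
def TRK_stmt : Prop := ∀ (n : ℕ), 3 ≤ n → ∀ H : Subgroup (SLZ n), ZDense H → ¬ H.FiniteIndex → Rk H

/-- **BGP** [medium]: ping-pong. Let `C ≥ 1` bound the sup norms of all `v_i` and the `ℓ¹` norms of all `f_i`. Take an
integral vector `y₀` with `f_i y₀ ≠ 0` for all `i` (finitely many nonzero linear forms). Claim: for a word `w` with
exponents of absolute value `≥ M`, `M` large, with neighbours of distinct indices and first letter `i`:
`w y₀ = A v_i + B`, `A` an integer, `|A| ≥ 4 C² ‖B‖`, `|A| ≥ 4 C² ‖y₀‖ + 1`. One letter: `A = a (f_i y₀)`, `B = y₀`.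
Next letter `j ≠ i`: `z_j ^ a y = y + a (f_j y) v_j`, `f_j y = A (f_j v_i) + f_j B`, `|f_j v_i| ≥ 1` (`Rk.pair`),
`|f_j B| ≤ C ‖B‖ ≤ |A| / 4`, so `|f_j y| ≥ |A| / 2`; new `A' = a (f_j y)`, `B' = y`, `‖y‖ ≤ |A| (C + 1)`. Then
`w y₀ ≠ y₀` because `‖w y₀‖ ≥ |A| / 2 > ‖y₀‖`. -/
def BGP_stmt : Prop := ∀ (n : ℕ) (H : Subgroup (SLZ n)), Rk H → ∀ (s : ℕ) (z : Fin s → SLZ n),
  (∀ i, z i ∈ H ∧ IsTv (z i)) → (∀ i j, i ≠ j → ¬ CP (z i) (z j)) →
  ∃ M : ℕ, ∀ w : List (Fin s × ℤ), w ≠ [] → (w.map Prod.fst).IsChain (fun i j => i ≠ j) →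
    (∀ p ∈ w, (M : ℤ) ≤ |p.2|) → (w.map fun p => z p.1 ^ p.2).prod ≠ 1

/-- **SLV** [short-medium]. Let `M` be as in BGP for the pair `z, p z p⁻¹` if they have no common power. Then
`z ^ M`, `(p z p⁻¹) ^ M` (`M ≥ 1`) generate a free group of rank 2: the homomorphism from `FreeGroup (Fin 2)` is
injective (BGP applied to the reduced word). It is not solvable: contradiction. -/
def SLV_stmt : Prop := ∀ (n : ℕ) (H : Subgroup (SLZ n)), Rk H → ∀ S : Subgroup (SLZ n), S ≤ H → Group.IsSolvable S →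
  ∀ z ∈ S, IsTv z → ∀ p ∈ S, CP z (p * z * p⁻¹)

/-- **MNK** [medium]: Minkowski's lemma in a saturated sublattice `L`. If `p` is not the identity on `L`, replace `p` by
a power: `p ^ l` is the identity on `L`, `l` prime, `p` not the identity on `L`, and still `p = 1` modulo `3` on `L`.
`T = p - 1` on `L`, `a ≥ 1` maximal with `T L ⊆ 3 ^ a L` (exists since `T ≠ 0`), `T = 3 ^ a Y`. Expand `(1 + T) ^ l = 1`:
`l T + (l choose 2) T² + ... + T ^ l = 0`. If `l ≠ 3` this gives `l Y = 0` modulo `3`; if `l = 3` divide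
`3 T + 3 T² + T³ = 0` by `3 ^ (a + 1)`: `Y + 3 ^ a Y² + 3 ^ (2 a - 1) Y³ = 0`. In both cases `Y L ⊆ 3 L`, against the
choice of `a`. -/
def MNK_stmt : Prop := ∀ (n : ℕ) (p : Matrix (Fin n) (Fin n) ℤ) (L : Submodule ℤ (Fin n → ℤ)),
  (∀ x : Fin n → ℤ, (3 : ℤ) • x ∈ L → x ∈ L) → (∀ x ∈ L, p *ᵥ x ∈ L) →
  (∀ x ∈ L, ∃ y : Fin n → ℤ, p *ᵥ x - x = (3 : ℤ) • y) → ∀ k : ℕ, 1 ≤ k → (∀ x ∈ L, (p ^ k) *ᵥ x = x) →
  ∀ x ∈ L, p *ᵥ x = x

/-- **FIX** [medium]. (1) Every `p ∈ P` maps `v` to `± v` and `f` to `± f`: apply the hypothesis to `p z p⁻¹ = 1 + (p v) ⊗ (f p⁻¹)`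
(`tv_conj`), which has infinite order, so `(p z p⁻¹) ^ k = z ^ m` with `m ≠ 0`, `k (p v) ⊗ (f p⁻¹) = m v ⊗ f`; `p v = c v`
with `c` rational, and `c = ± 1` since `p` and `p⁻¹` are integral. (2) `N` = the `p ∈ P` with `p v = v`, `f p = f`, `p = 1`
modulo `3`: finite index in `P`. For `p ∈ N`, `L = {x | f x = 0}`: `p ^ k = z ^ m` is the identity on `L`, so MNK gives
`p = 1` on `L`, hence `p = 1 + y ⊗ f` with `y` rational (`y = (p x - x) / f x` for one `x` with `f x ≠ 0`), and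
`p ^ k = 1 + k y ⊗ f = 1 + m v ⊗ f` gives `y = (m / k) v`. (3) The `t` rational with `t v ⊗ f` integral: `t d` is an
integer, `d = v_i f_j ≠ 0` for one entry. So `p ↦ t d` is an injective homomorphism of `N` to `ℤ` and `z ^ j ∈ N` for some
`j ≥ 1` has nonzero image, so `⟨z⟩ ⊓ N` has finite index in `N`. -/
def FIX_stmt : Prop := ∀ (n : ℕ) (P : Subgroup (SLZ n)) (z : SLZ n) (v f : Fin n → ℤ), z ∈ P → Tv z v f →
  (∀ p ∈ P, ∃ k : ℕ, 1 ≤ k ∧ ∃ m : ℤ, p ^ k = z ^ m) → (Subgroup.zpowers z).relIndex P ≠ 0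

/-- **VCY** [short-medium] (from SLV, FIX). `S ≤ P` solvable of finite index, `z ^ j ∈ S` for some `j ≥ 1` (and `z ^ j` is
a transvection `tv v (j f)`). For `p ∈ S`: `CP (z ^ j) (p z ^ j p⁻¹)` by SLV, hence `p v` is proportional to `v` and
`f (p v) = 0`, so `Rk.stab` gives `p ^ k ∈ ⟨z ^ j⟩`; by FIX `⟨z ^ j⟩` has finite index in `S`, hence `⟨z⟩` in `P`; finitely
many cosets. -/
def VCY_stmt : Prop := ∀ (n : ℕ) (H : Subgroup (SLZ n)), Rk H → ∀ P : Subgroup (SLZ n), P ≤ H → VSol P →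
  ∀ z ∈ P, IsTv z → ∃ F : Set (SLZ n), F.Finite ∧ F ⊆ P ∧ ∀ p ∈ P, ∃ a : ℤ, ∃ c ∈ F, p = z ^ a * c

/-- **PRC** [short]: continuity of `pr` away from `0`, invariance under scalars. -/
def PRC_stmt : Prop := ∀ n : ℕ, ContinuousOn (pr : (Fin n → ℂ) → Matrix (Fin n) (Fin n) ℂ) {x | x ≠ 0} ∧
  (∀ (c : ℂ) (x : Fin n → ℂ), c ≠ 0 → pr (c • x) = pr x) ∧
  (∀ x y : Fin n → ℂ, x ≠ 0 → y ≠ 0 → pr x = pr y → ∃ c : ℂ, c ≠ 0 ∧ y = c • x)

/-- **LED** [medium]: reduced words with large exponents. Backwards: `z_i ^ {a_i} ... z_r ^ {a_r} x = A v_i + B`, where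
`‖B‖ ≤ ε ‖A‖` once all exponents are large. `i = r`: `A = a_r (f_r x)`, `B = x`. Step: `y = A v_{i+1} + B`,
`z_i ^ a y = y + a (f_i y) v_i`, `f_i y = A (f_i v_{i+1}) + f_i B`, `f_i v_{i+1} ≠ 0` (`Rk.pair`), so `‖f_i y‖ ≥ ‖A‖ / 2` and
`‖y‖ ≤ C ‖A‖ ≤ (2 C / |a|) ‖a (f_i y)‖`. At the end `pr (A v_1 + B) = pr (v_1 + A⁻¹ B)` is close to `pr v_1` (PRC). -/
def LED_stmt : Prop := ∀ (n : ℕ) (H : Subgroup (SLZ n)), Rk H → ∀ (r : ℕ) (z : Fin (r + 1) → SLZ n)
  (v f : Fin (r + 1) → Fin n → ℤ), (∀ i, z i ∈ H) → (∀ i, Tv (z i) (v i) (f i)) →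
  (∀ i : Fin r, ¬ CP (z i.castSucc) (z i.succ)) → ∀ x : Fin n → ℂ, cv (f (Fin.last r)) ⬝ᵥ x ≠ 0 →
  ∀ ε : ℝ, 0 < ε → ∃ M : ℕ, ∀ a : Fin (r + 1) → ℤ, (∀ i, (M : ℤ) ≤ |a i|) →
    ∀ i j : Fin n, ‖pr (cm (word z a) *ᵥ x) i j - pr (cv (v 0)) i j‖ < ε

/-- **CLO** [medium] (from LED): induction on `r`. `r = 0`: one point. Let `S` be the set, `S_{i,c}` the part with
`a_i = c`, `S_M` the part with `|a_i| ≥ M` for all `i`. `S` is the union of `S_M` and finitely many `S_{i,c}`, so its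
closure lies in the union of the closures of the `S_{i,c}` (all `i`, `c`) and the intersection of the closures of the `S_M`.
(a) `S_{i,c}`: move `z_i ^ c` to the right, the letters on its right are conjugated by `z_i ^ c`, `x` is replaced by
`z_i ^ c x`: a set for `r - 1` letters; `KK (g x) = KK x`. (b) `S_M`: if two neighbours `z_i`, `z_{i+1}` have a common power
`z_i ^ a = z_{i+1} ^ b`, write the exponent of `z_i` as `a q + ρ`, `0 ≤ ρ < |a|`: `z_i ^ ρ * z_{i+1} ^ (b q + t)`, again the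
constant `z_i ^ ρ` is moved to the right, `r - 1` letters, finitely many `ρ`. If `f_r x = 0` the last letter fixes `x`
and is dropped. Otherwise LED: the intersection of the closures of the `S_M` is in `{pr (cv (v 0))}`. -/
def CLO_stmt : Prop := ∀ (n : ℕ) (H : Subgroup (SLZ n)), Rk H → ∀ (r : ℕ) (z : Fin r → SLZ n),
  (∀ i, z i ∈ H ∧ IsTv (z i)) → ∀ x : Fin n → ℂ, x ≠ 0 →
  closure (Set.range fun a : Fin r → ℤ => pr (cm (word z a) *ᵥ x)) ⊆ KK x

/-- **CNT** [short]: `SL(n, ℤ)` and `ℤⁿ` are countable. -/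
def CNT_stmt : Prop := ∀ (n : ℕ) (x : Fin n → ℂ), (KK x).Countable

/-- **FOR** [medium]: a countable compact space with a group of homeomorphisms has a finite orbit. Zorn: a minimal non
empty closed invariant subset `M` (chains have non empty intersection by compactness). `M` is countable and compact, by
Baire one point `p` is isolated in `M`. The orbit of `p` is open in `M`, its complement in `M` is closed, invariant and does not
contain `p`, hence empty; so all points of `M` are isolated and `M` is finite by compactness. -/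
def FOR_stmt : Prop := ∀ (G X : Type) [Group G] [TopologicalSpace X] [CompactSpace X] [T2Space X] [Countable X]
  [Nonempty X] (T : G → X → X), (∀ g, Continuous (T g)) → (∀ x, T 1 x = x) → (∀ g h x, T (g * h) x = T g (T h x)) →
  ∃ x : X, (Set.range fun g : G => T g x).Finite

/-- **IRR** [medium]. Suppose the set is finite. The stabiliser `H₁` of the line of `x` has finite index in `H` (PRC),
and is Zariski dense (the library of helper48 or helper54 has this for finite index subgroups; or: product of translates).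
For `j ≠ l` the complex linear form `g ↦ (g x)_j x_l - (g x)_l x_j` vanishes on `H₁`. Expand its coefficients in a basis of
their `ℚ`-span: rational linear forms which vanish on `H₁`, hence on `SL(n, ℤ)`; so the complex form vanishes on `SL(n, ℤ)`.
Values at `1` and at `1 + E_{j b}`, `b ≠ j`: `x_b x_l = 0` for all `b ≠ j`, `l ≠ j`. Take `b = l` with `x_b ≠ 0` and
`j ≠ b`. -/
def IRR_stmt : Prop := ∀ (n : ℕ), 2 ≤ n → ∀ H : Subgroup (SLZ n), ZDense H → ∀ x : Fin n → ℂ, x ≠ 0 →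
  ¬ {M | ∃ g ∈ H, M = pr (cm g *ᵥ x)}.Finite

/-- **VEC** [short-medium] (from `Pool.Agent.helper5` `Z_MAL_stmt` for `K = ℂ`): a virtually solvable subgroup has a
subgroup of finite index with a common eigenvector `x` (first step of the flag); finitely many cosets, PRC. -/
def VEC_stmt : Prop := ∀ (n : ℕ), 1 ≤ n → ∀ A : Subgroup (SLZ n), VSol A →
  ∃ x : Fin n → ℂ, x ≠ 0 ∧ {M | ∃ g ∈ A, M = pr (cm g *ᵥ x)}.Finite

/-- **CVR** [medium] (from VCY, CLO, CNT). By induction on the list of factors: for all lists and all `x`, the set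
`pr (X_1 ... X_k x)` is contained in the union of finitely many sets `{pr (c z_1 ^ {a_1} ... z_r ^ {a_r} g x)}`,
`c, g ∈ H`, `z_i ∈ H` transvections (a finite factor: translate; a virtually solvable factor: VCY, constants are moved to
the right by conjugation, so one may take `c = 1`). Closure by CLO; the scalars of `A` do not matter (PRC). -/
def CVR_stmt : Prop := ∀ (n : ℕ) (H : Subgroup (SLZ n)), Rk H → ∀ (Xs : List (Set (SLZ n))), (∀ X ∈ Xs, Fac H X) →
  ∀ A : Set (SLZ n), A ⊆ H → ∀ x : Fin n → ℂ, x ≠ 0 → {M | ∃ g ∈ A, M = pr (cm g *ᵥ x)}.Finite →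
  (closure {M | ∃ g ∈ Xs.prod * A, M = pr (cm g *ᵥ x)}).Countable

/-- **THN** [medium] (from CVR, FOR, IRR, PRC). If `H ⊆ Xs.prod * A`, then the closure `K` of `{pr (g x) | g ∈ H}` is countable,
compact (contained in the image of the unit sphere), and `H` acts on it: `T_g M = g M gᴴ / tr (g M gᴴ)`, continuous
on the projectors, `T_g (pr x) = pr (g x)`, so `T_g K ⊆ K`. By FOR a finite orbit, of some `pr y` (every point of `K` is
`pr y`, `y ≠ 0`), against IRR. -/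
def THN_stmt : Prop := ∀ (n : ℕ), 3 ≤ n → ∀ (H : Subgroup (SLZ n)), ZDense H → ¬ H.FiniteIndex →
  ∀ (Xs : List (Set (SLZ n))), (∀ X ∈ Xs, Fac H X) → ∀ A : Subgroup (SLZ n), A ≤ H →
  (∃ x : Fin n → ℂ, x ≠ 0 ∧ {M | ∃ g ∈ A, M = pr (cm g *ᵥ x)}.Finite) → ¬ ((H : Set (SLZ n)) ⊆ Xs.prod * (A : Set (SLZ n)))

/-- **ITV** [short-medium]: all `2 × 2` minors of `g - 1` vanish modulo every prime, hence vanish; a nonzero integral matrix
with vanishing `2 × 2` minors is `v ⊗ f`; `det = 1` gives `f v = 0`. -/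
def ITV_stmt : Prop := ∀ (n : ℕ) (g : SLZ n), g ≠ 1 →
  (∀ p : ℕ, p.Prime → ((((g : Matrix (Fin n) (Fin n) ℤ) - 1).map (fun a : ℤ => (a : ZMod p))).rank ≤ 1)) → IsTv g

end Pool.Agent.TF
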