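import Pool.Agent.helper73.TF.Spec

set_option autoImplicit false

namespace Pool.Agent.TF

open Matrix Pool.Agent.H48SL

theorem TRK_ne_one {n : ℕ} {z : SLZ n} {v f : Fin n → ℤ} (h : Tv z v f) : z ≠ 1 := by
  intro h1
  have h2 : (z : Matrix (Fin n) (Fin n) ℤ) = 1 + vecMulVec v f := by rw [h.eq, tv_coe h.dot]
  rw [h1] at h2
  have h3 : vecMulVec v f = 0 := by
    have : (1 : Matrix (Fin n) (Fin n) ℤ) = 1 + vecMulVec v f := h2
    simpa using this.symm
  obtain ⟨i, hi⟩ := Function.ne_iff.mp h.ne_v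
  obtain ⟨j, hj⟩ := Function.ne_iff.mp h.ne_f
  have h4 := congrFun (congrFun h3 i) j
  rw [vecMulVec_apply] at h4
  exact (mul_ne_zero hi hj) h4

theorem TRK : TRK_stmt := by
  intro n hn H hD hfi
  constructor
  · intro z z' v f v' f' hz hz' h h' hcp
    have hze : (z : Matrix (Fin n) (Fin n) ℤ) = 1 + vecMulVec v f := by rw [h.eq, tv_coe h.dot]
    have hze' : (z' : Matrix (Fin n) (Fin n) ℤ) = 1 + vecMulVec v' f' := by rw [h'.eq, tv_coe h'.dot]
    have htr : ((z * z' : SLZ n) : Matrix (Fin n) (Fin n) ℤ).trace - Fintype.card (Fin n)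
        = (f ⬝ᵥ v') * (f' ⬝ᵥ v) := by
      rw [Matrix.SpecialLinearGroup.coe_mul, hze, hze', Matrix.add_mul, Matrix.mul_add, Matrix.mul_add,
        vecMulVec_mul_vecMulVec, Matrix.one_mul, Matrix.one_mul, Matrix.mul_one, Matrix.trace_add,
        Matrix.trace_add, Matrix.trace_add, Matrix.trace_one, Matrix.trace_vecMulVec,
        Matrix.trace_vecMulVec, Matrix.trace_vecMulVec, dotProduct_smul, dotProduct_comm v f, h.dot,
        dotProduct_comm v' f', h'.dot, dotProduct_comm v f']
      simp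
    have key : (f ⬝ᵥ v') * (f' ⬝ᵥ v) ≠ 0 := by
      intro h0
      apply hfi
      refine (final_pairs (by simpa using hn) H v f v' f' z z' hz hz' (TRK_ne_one h) (TRK_ne_one h') hze hze' ?_ ?_).1 hD
      · rw [htr, h0]; simp
      · intro a b ha hb hab
        exact hcp ⟨a, b, ha, hb, hab⟩
    exact ⟨left_ne_zero_of_mul key, right_ne_zero_of_mul key⟩
  · intro z g v f hz hg h h0
    by_contra hc
    push Not at hc
    apply hfi
    refine (final_coef (by simpa using hn) H v f z g hz hg (TRK_ne_one h) (by rw [h.eq, tv_coe h.dot]) ?_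
      (Or.inr fun k hk m => hc k hk m)).1 hD
    rw [h0]; simp

end Pool.Agent.TF
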